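import Pool.Agent.Helper12.XG.St2

/-!
# Project XG (MP_627c93_nt), module KPR: the first `k` primes
-/

set_option autoImplicit false

namespace Pool.Agent.Helper14.XG

open Finset Polynomial Pool.Agent.Helper12.XG Pool.Agent.Helper14.GS

theorem hKPR (h : StMAI) : Pool.Agent.Helper12.XG.StKPR := by
  obtain ⟨y₀, hy₀⟩ := h 1
  refine ⟨y₀ + 1, fun k hk => ?_⟩
  have hinf : (Set.ofPred Nat.Prime).Infinite := Nat.infinite_setOfPred_prime
  have hmono : StrictMono (Nat.nth Nat.Prime) := Nat.nth_strictMono hinf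
  have hy : y₀ ≤ Nat.nth Nat.Prime (k - 1) :=
    (by omega : y₀ ≤ k - 1).trans (hmono.id_le (k - 1))
  refine hy₀ (Nat.nth Nat.Prime (k - 1)) hy ((range k).image (Nat.nth Nat.Prime)) ?_ ?_ ?_
  · intro p hp
    obtain ⟨i, -, rfl⟩ := Finset.mem_image.1 hp
    exact Nat.nth_mem_of_infinite hinf i
  · intro p hp hle
    refine Finset.mem_image.2 ⟨Nat.count Nat.Prime p, ?_, Nat.nth_count hp⟩
    rw [Finset.mem_range]
    by_contra hcon
    have h1 : k - 1 < Nat.count Nat.Prime p := by omega
    have h2 := hmono h1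
    rw [Nat.nth_count hp] at h2
    omega
  · intro p hp
    obtain ⟨i, hi, rfl⟩ := Finset.mem_image.1 hp
    rw [Finset.mem_range] at hi
    rw [pow_one]
    refine Real.log_le_log ?_ ?_
    · exact_mod_cast (Nat.nth_mem_of_infinite hinf i : Nat.Prime _).pos
    · exact_mod_cast hmono.monotone (by omega : i ≤ k - 1)

end Pool.Agent.Helper14.XG
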